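import Pool.Agent.H2.KL.Stm

/-!
# KL, part REP (main statement of the Kirillov block) from its dependencies
-/

set_option autoImplicit false

open Finset Module

namespace H68.KL

open H2.KL

/-- arithmetic: from `d * h ≤ i * n` and `h ^ 2 = n * r` -/
theorem arith1 {d h i n r : ℕ} (hn : 0 < n) (h1 : d * h ≤ i * n) (h2 : h ^ 2 = n * r) :
    d ^ 2 * r ≤ i ^ 2 * n := by
  have h3 : (d * h) ^ 2 ≤ (i * n) ^ 2 := Nat.pow_le_pow_left h1 2
  have h4 : n * (d ^ 2 * r) ≤ n * (i ^ 2 * n) := by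
    calc n * (d ^ 2 * r) = d ^ 2 * (n * r) := by ring
      _ = d ^ 2 * h ^ 2 := by rw [h2]
      _ = (d * h) ^ 2 := by ring
      _ ≤ (i * n) ^ 2 := h3
      _ = n * (i ^ 2 * n) := by ring
  exact Nat.le_of_mul_le_mul_left h4 hn

theorem arith2 {d h i n r : ℕ} (hn : 0 < n) (h1 : i * n ≤ d * h) (h2 : h ^ 2 = n * r) :
    i ^ 2 * n ≤ d ^ 2 * r := by
  have h3 : (i * n) ^ 2 ≤ (d * h) ^ 2 := Nat.pow_le_pow_left h1 2
  have h4 : n * (i ^ 2 * n) ≤ n * (d ^ 2 * r) := by
    calc n * (i ^ 2 * n) = (i * n) ^ 2 := by ring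
      _ ≤ (d * h) ^ 2 := h3
      _ = d ^ 2 * h ^ 2 := by ring
      _ = d ^ 2 * (n * r) := by rw [h2]
      _ = n * (d ^ 2 * r) := by ring
  exact Nat.le_of_mul_le_mul_left h4 hn

section
variable {K : Type} [Group K] {k : Type} [LieRing k] (L : LExp K k)

/-- the linear character `exp x ↦ stdAddChar (φ x)` of `exp h` -/
noncomputable def linChar {q : ℕ} [NeZero q] (φ : k →+ ZMod q) (h : AddSubgroup k) (hh : IsSub h)
    (iso : ∀ x ∈ h, ∀ y ∈ h, φ ⁅x, y⁆ = 0) : L.grp h hh →* ℂˣ :=
  MonoidHom.toHomUnits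
    { toFun := fun x => (ZMod.stdAddChar (N := q) (φ (L.e.symm (x : K))) : ℂ)
      map_one' := by
        have : L.e.symm (1 : K) = 0 := by rw [← L.e_zero, Equiv.symm_apply_apply]
        rw [OneMemClass.coe_one, this, map_zero, AddChar.map_zero_eq_one]
      map_mul' := by
        intro x y
        have hx : L.e.symm (x : K) ∈ h := x.2
        have hy : L.e.symm (y : K) ∈ h := y.2
        have h1 := L.mul h hh _ hx _ hy
        rw [Equiv.apply_symm_apply, Equiv.apply_symm_apply] at h1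
        have h2 := map_der iso h1
        rw [map_sub, map_sub] at h2
        have h3 : φ (L.e.symm ((x : K) * (y : K))) = φ (L.e.symm (x : K)) + φ (L.e.symm (y : K)) := by
          have h4 : φ (L.e.symm ((x : K) * (y : K))) - (φ (L.e.symm (x : K)) + φ (L.e.symm (y : K))) = 0 := by
            rw [← h2]; ring
          exact sub_eq_zero.mp h4
        rw [Subgroup.coe_mul, h3, AddChar.map_add_eq_mul] }

theorem linChar_apply {q : ℕ} [NeZero q] (φ : k →+ ZMod q) (h : AddSubgroup k) (hh : IsSub h)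
    (iso : ∀ x ∈ h, ∀ y ∈ h, φ ⁅x, y⁆ = 0) (x : L.grp h hh) :
    ((linChar L φ h hh iso x : ℂˣ) : ℂ) = (ZMod.stdAddChar (N := q) (φ (L.e.symm (x : K))) : ℂ) := rfl

end

theorem t_REP (hTRACE : S_TRACE) (hPOL : S_POL) (hSPAN : S_SPAN) (hUP : S_UP) (hEXI : S_EXI)
    (hDIMGE : S_DIMGE) : S_REP := by
  intro p N hp G _ _ K _ k _ _ L hk a ha hab hconj
  have : NeZero (p ^ N) := ⟨pow_ne_zero _ hp.out.ne_zero⟩
  have hcardk : 0 < Nat.card k := Nat.card_pos
  refine ⟨?_, ?_⟩
  · intro V _ _ _ ρ hρ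
    have : Nontrivial V := by
      by_contra hnt
      rw [not_nontrivial_iff_subsingleton] at hnt
      have hne : (⊥ : Subrepresentation ρ) ≠ ⊤ := hρ.bot_ne_top
      apply hne
      apply Subrepresentation.toSubmodule_injective
      exact Subsingleton.elim _ _
    obtain ⟨ψ, hψ⟩ := hTRACE (p ^ N) K k L hk V (ρ.comp K.subtype)
    obtain ⟨h, hpol, -⟩ := hPOL p N k hk L.nil a ha hab ψ
    obtain ⟨w, hw0, hw⟩ := hψ h hpol
    have h1 := hSPAN (p ^ N) K k L hk ψ h hpol V (ρ.comp K.subtype) w hw0 hw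
    have h2 := hUP G K V ρ hρ w hw0
    refine ⟨ψ, arith1 (h := Nat.card h) hcardk ?_ hpol.card⟩
    have h3 : finrank ℂ (Submodule.span ℂ (Set.range fun g : K => ρ g w)) * Nat.card h
        = Nat.card k := h1
    calc finrank ℂ V * Nat.card h
        ≤ (K.index * finrank ℂ (Submodule.span ℂ (Set.range fun g : K => ρ g w))) * Nat.card h :=
          Nat.mul_le_mul_right _ h2
      _ = K.index * Nat.card k := by rw [mul_assoc, h3]
  · intro φ hst
    obtain ⟨h, hpol, hah⟩ := hPOL p N k hk L.nil a ha hab φ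
    set H := L.grp h hpol.sub with hH
    have hinj : Function.Injective K.subtype := K.subtype_injective
    obtain ⟨V, iV1, iV2, iV3, ρ, w, hirr, hw0, hw⟩ := hEXI G (H.map K.subtype)
      ((linChar L φ h hpol.sub hpol.iso).comp
        (H.equivMapOfInjective K.subtype hinj).symm.toMonoidHom)
    have hwe : ∀ x ∈ h, ρ ((L.e x : K) : G) w = (ZMod.stdAddChar (N := p ^ N) (φ x) : ℂ) • w := by
      intro x hx
      have hxH : L.e x ∈ H := by rw [hH, L.e_mem_grp]; exact hx
      have h1 := hw ((H.equivMapOfInjective K.subtype hinj) ⟨L.e x, hxH⟩)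
      have h2 : (((H.equivMapOfInjective K.subtype hinj) ⟨L.e x, hxH⟩ : H.map K.subtype) : G)
          = ((L.e x : K) : G) := rfl
      rw [h2] at h1
      rw [h1, MonoidHom.comp_apply, MulEquiv.coe_toMonoidHom, MulEquiv.symm_apply_apply,
        linChar_apply]
      simp only [Equiv.symm_apply_apply]
    have h1 := hSPAN (p ^ N) K k L hk φ h hpol V (ρ.comp K.subtype) w hw0 (fun x hx => hwe x hx)
    have h3 : finrank ℂ (Submodule.span ℂ (Set.range fun g : K => ρ g w)) * Nat.card h
        = Nat.card k := h1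
    classical
    set A : Subgroup G := (L.grp a ha.isSub).map K.subtype with hA
    have hmemA : ∀ g : G, g ∈ A → ∃ x ∈ a, g = ((L.e x : K) : G) := by
      intro g hg
      rw [hA, Subgroup.mem_map] at hg
      obtain ⟨u, hu, rfl⟩ := hg
      exact ⟨L.e.symm u, hu, by rw [Equiv.apply_symm_apply]; rfl⟩
    have hAmem : ∀ x ∈ a, ((L.e x : K) : G) ∈ A := by
      intro x hx
      rw [hA, Subgroup.mem_map]
      exact ⟨L.e x, (L.e_mem_grp).mpr hx, rfl⟩
    have : A.Normal := by
      constructor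
      intro n hn g
      obtain ⟨x, hx, rfl⟩ := hmemA n hn
      obtain ⟨y, hy, hxy⟩ := hconj g x hx
      rw [hxy]
      exact hAmem y hy
    have hAK : A ≤ K := by
      intro g hg
      obtain ⟨x, hx, rfl⟩ := hmemA g hg
      exact (L.e x).2
    set χ : G → ℂ := fun g => if hg : g ∈ K then
      (ZMod.stdAddChar (N := p ^ N) (φ (L.e.symm ⟨g, hg⟩)) : ℂ) else 0 with hχ
    have hχe : ∀ x : k, χ ((L.e x : K) : G) = (ZMod.stdAddChar (N := p ^ N) (φ x) : ℂ) := by
      intro x
      rw [hχ]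
      simp only [SetLike.coe_mem, dite_true, Subtype.coe_eta, Equiv.symm_apply_apply]
    have h4 := hDIMGE G K A hAK V ρ χ w hw0 (by
      intro g hg
      obtain ⟨x, hx, rfl⟩ := hmemA g hg
      rw [hχe]
      exact hwe x (hah hx)) (by
      intro g hg
      apply hst g
      intro x hx y hy hxy
      have h5 := hg _ (hAmem y hy)
      have h6 : g⁻¹ * ((L.e y : K) : G) * g = ((L.e x : K) : G) := by
        rw [← hxy]; group
      rw [h6, hχe, hχe] at h5
      exact (ZMod.injective_stdAddChar h5).symm)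
    refine ⟨V, iV1, iV2, iV3, ρ, hirr, arith2 (h := Nat.card h) hcardk ?_ hpol.card, ?_⟩
    · calc K.index * Nat.card k
          = (K.index * finrank ℂ (Submodule.span ℂ (Set.range fun g : K => ρ g w))) * Nat.card h := by
            rw [mul_assoc, h3]
        _ ≤ finrank ℂ V * Nat.card h := Nat.mul_le_mul_right _ h4
    · intro z hz hφz hρz
      apply hφz
      have h7 := hwe z (hah hz)
      rw [hρz, Module.End.one_apply] at h7
      have h8 : ((ZMod.stdAddChar (N := p ^ N) (φ z) : ℂ) - 1) • w = 0 := by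
        rw [sub_smul, one_smul, ← h7, sub_self]
      rcases smul_eq_zero.mp h8 with h9 | h9
      · have h10 : (ZMod.stdAddChar (N := p ^ N) (φ z) : ℂ) = ZMod.stdAddChar (N := p ^ N) 0 := by
          rw [AddChar.map_zero_eq_one]
          exact sub_eq_zero.mp h9
        exact ZMod.injective_stdAddChar h10
      · exact absurd h9 hw0

end H68.KL
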