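import Pool.Agent.H2.KL.Stm

/-!
# KL, part CHAIN: a chain of ideals with steps of order `p`
-/

set_option autoImplicit false

open Finset Module

namespace H68.KL

open H2.KL

theorem lcs_mem {k : Type} [LieRing k] (n : ℕ) (y : k) {x : k} (hx : x ∈ lcs k n) :
    ⁅y, x⁆ ∈ lcs k (n + 1) :=
  AddSubgroup.subset_closure ⟨y, x, hx, rfl⟩

/-- one step of the chain -/
theorem step {p N : ℕ} (hp : p.Prime) {k : Type} [LieRing k]
    (hk : ∀ x : k, (p ^ N) • x = 0) (hnil : ∃ n, lcs k n = ⊥) (a : AddSubgroup k) (ha : IsIdl a)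
    (hat : a ≠ ⊤) : ∃ b : AddSubgroup k, IsIdl b ∧ a ≤ b ∧ a.relIndex b = p := by
  classical
  -- the first term of the lower central series inside `a`
  have hex : ∃ n, lcs k n ≤ a := by
    obtain ⟨n, hn⟩ := hnil
    exact ⟨n, by rw [hn]; exact bot_le⟩
  set m := Nat.find hex with hm
  have hm1 : lcs k m ≤ a := Nat.find_spec hex
  have hm0 : m ≠ 0 := by
    intro h0
    rw [h0] at hm1
    exact hat (top_le_iff.mp hm1)
  obtain ⟨m', hm'⟩ := Nat.exists_eq_succ_of_ne_zero hm0
  have hm2 : ¬ lcs k m' ≤ a := Nat.find_min hex (by omega)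
  rw [SetLike.not_le_iff_exists] at hm2
  obtain ⟨x, hx1, hx2⟩ := hm2
  have hx3 : ∀ y : k, ⁅y, x⁆ ∈ a := fun y => hm1 (by rw [hm']; exact lcs_mem m' y hx1)
  -- the first power of `p` that kills `x` modulo `a`
  have hex2 : ∃ j, (p ^ j) • x ∈ a := ⟨N, by rw [hk]; exact zero_mem _⟩
  set j := Nat.find hex2 with hj
  have hj1 : (p ^ j) • x ∈ a := Nat.find_spec hex2
  have hj0 : j ≠ 0 := by
    intro h0
    rw [h0, pow_zero, one_smul] at hj1
    exact hx2 hj1
  obtain ⟨j', hj'⟩ := Nat.exists_eq_succ_of_ne_zero hj0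
  have hj2 : (p ^ j') • x ∉ a := Nat.find_min hex2 (by omega)
  set z := (p ^ j') • x with hz
  have hz1 : p • z ∈ a := by
    rw [hz, smul_smul, ← pow_succ', ← Nat.succ_eq_add_one, ← hj']
    exact hj1
  have hz2 : ∀ y : k, ⁅y, z⁆ ∈ a := by
    intro y
    rw [hz, lie_nsmul]
    exact nsmul_mem (hx3 y) _
  refine ⟨a ⊔ AddSubgroup.zmultiples z, ?_, le_sup_left, ?_⟩
  · intro y w hw
    rw [AddSubgroup.mem_sup] at hw
    obtain ⟨u, hu, v, hv, rfl⟩ := hw
    rw [AddSubgroup.mem_zmultiples_iff] at hv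
    obtain ⟨n, rfl⟩ := hv
    apply AddSubgroup.mem_sup_left
    rw [lie_add]
    refine add_mem (ha y u hu) ?_
    rw [lie_zsmul]
    exact zsmul_mem (hz2 y) n
  · have h1 : a.relIndex (a ⊔ AddSubgroup.zmultiples z) = a.relIndex (AddSubgroup.zmultiples z) := by
      rw [sup_comm]
      exact AddSubgroup.relIndex_sup_right _ _
    rw [h1]
    have h2 := AddSubgroup.relIndex_ker (AddSubgroup.zmultiples z) (QuotientAddGroup.mk' a)
    rw [QuotientAddGroup.ker_mk'] at h2
    rw [h2, AddMonoidHom.map_zmultiples, Nat.card_zmultiples]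
    have : Fact p.Prime := ⟨hp⟩
    apply addOrderOf_eq_prime
    · rw [← map_nsmul]
      exact (QuotientAddGroup.eq_zero_iff _).mpr hz1
    · intro h3
      exact hj2 ((QuotientAddGroup.eq_zero_iff _).mp h3)

theorem chain_aux {p N : ℕ} (hp : p.Prime) {k : Type} [LieRing k] [Finite k]
    (hk : ∀ x : k, (p ^ N) • x = 0) (hnil : ∃ n, lcs k n = ⊥) :
    ∀ (d : ℕ) (a : AddSubgroup k), IsIdl a → a.index ≤ d →
    ∃ (n : ℕ) (c : ℕ → AddSubgroup k), c 0 = a ∧ c n = ⊤ ∧
      (∀ i, i ≤ n → IsIdl (c i)) ∧ ∀ i, i < n → c i ≤ c (i + 1) ∧ (c i).relIndex (c (i + 1)) = p := by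
  intro d
  induction d with
  | zero =>
    intro a ha had
    exfalso
    have : a.index ≠ 0 := AddSubgroup.index_ne_zero_of_finite
    omega
  | succ d ih =>
    intro a ha had
    by_cases hat : a = ⊤
    · subst hat
      exact ⟨0, fun _ => ⊤, rfl, rfl, fun _ _ => ha, fun i hi => absurd hi (Nat.not_lt_zero i)⟩
    · obtain ⟨b, hb, hab, hidx⟩ := step hp hk hnil a ha hat
      have h1 : a.relIndex b * b.index = a.index := AddSubgroup.relIndex_mul_index hab
      rw [hidx] at h1
      have hb0 : b.index ≠ 0 := AddSubgroup.index_ne_zero_of_finite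
      have hp2 := hp.two_le
      have h2 : b.index ≤ d := by
        have : 2 * b.index ≤ p * b.index := Nat.mul_le_mul_right _ hp2
        omega
      obtain ⟨n, c, hc0, hcn, hci, hcs⟩ := ih b hb h2
      refine ⟨n + 1, fun i => if i = 0 then a else c (i - 1), ?_, ?_, ?_, ?_⟩
      · simp
      · simp [hcn]
      · intro i hi
        by_cases h0 : i = 0
        · simp only [h0, if_true]; exact ha
        · simp only [h0, if_false]
          exact hci _ (by omega)
      · intro i hi
        by_cases h0 : i = 0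
        · subst h0
          simp only [if_true, zero_add, one_ne_zero, if_false, Nat.sub_self, hc0]
          exact ⟨hab, hidx⟩
        · have h3 : i + 1 - 1 = (i - 1) + 1 := by omega
          simp only [h0, if_false, Nat.add_eq_zero_iff, one_ne_zero, and_false, h3]
          exact hcs _ (by omega)

theorem t_CHAIN : S_CHAIN := by
  intro p N hp k _ _ hk hnil a ha
  exact chain_aux hp.out hk hnil a.index a ha le_rfl

end H68.KL
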