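import Pool.Agent.H2.KL.Stm

/-!
# KL, part POL: Vergne polarization containing an abelian ideal
-/

set_option autoImplicit false

open Finset Module

namespace H68.KL

open H2.KL

section
variable {k : Type} [LieRing k] {q : ℕ} (φ : k →+ ZMod q) (c : ℕ → AddSubgroup k)

/-- partial sums of the radicals along the chain -/
def HH : ℕ → AddSubgroup k
  | 0 => radIn φ (c 0)
  | i + 1 => HH i ⊔ radIn φ (c (i + 1))

theorem le_HH (i : ℕ) : radIn φ (c i) ≤ HH φ c i := by
  cases i with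
  | zero => exact le_rfl
  | succ i => exact le_sup_right

theorem HH_zero_le (i : ℕ) : HH φ c 0 ≤ HH φ c i := by
  induction i with
  | zero => exact le_rfl
  | succ i ih => exact ih.trans le_sup_left

variable {φ c}

theorem HH_le {n : ℕ} (hmono : ∀ i, i < n → c i ≤ c (i + 1)) : ∀ i, i ≤ n → HH φ c i ≤ c i := by
  intro i
  induction i with
  | zero => intro _ x hx; exact hx.1
  | succ i ih =>
    intro hi
    exact sup_le ((ih (by omega)).trans (hmono i (by omega))) (fun x hx => hx.1)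

theorem c_mono {n : ℕ} (hmono : ∀ i, i < n → c i ≤ c (i + 1)) {i j : ℕ} (hij : i ≤ j) (hj : j ≤ n) :
    c i ≤ c j := by
  induction j, hij using Nat.le_induction with
  | base => exact le_rfl
  | succ j hij ih => exact (ih (by omega)).trans (hmono j (by omega))

theorem rad_bracket {m m' : AddSubgroup k} (hm : IsIdl m) (hmm : m ≤ m') {x y : k}
    (hx : x ∈ radIn φ m) (hy : y ∈ radIn φ m') : ⁅x, y⁆ ∈ radIn φ m := by
  refine ⟨?_, ?_⟩
  · rw [← lie_skew]
    exact neg_mem (hm y x hx.1)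
  · intro w hw
    have h1 : ⁅⁅x, y⁆, w⁆ = ⁅x, ⁅y, w⁆⁆ - ⁅y, ⁅x, w⁆⁆ := lie_lie x y w
    rw [h1, map_sub, hx.2 _ (hm y w hw), hy.2 _ (hmm (hm x w hw)), sub_zero]

theorem HH_bracket {n : ℕ} (hmono : ∀ i, i < n → c i ≤ c (i + 1)) (hid : ∀ i, i ≤ n → IsIdl (c i)) :
    ∀ i, i ≤ n → ∀ j, i ≤ j → j ≤ n → ∀ u ∈ HH φ c i, ∀ r ∈ radIn φ (c j), ⁅u, r⁆ ∈ HH φ c i := by
  intro i
  induction i with
  | zero =>
    intro _ j hj1 hj2 u hu r hr
    exact rad_bracket (hid 0 (Nat.zero_le _)) (c_mono hmono hj1 hj2) hu hr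
  | succ i ih =>
    intro hi j hj1 hj2 u hu r hr
    obtain ⟨u0, hu0, r0, hr0, rfl⟩ := AddSubgroup.mem_sup.mp hu
    rw [add_lie]
    exact add_mem (AddSubgroup.mem_sup_left (ih (by omega) j (by omega) hj2 u0 hu0 r hr))
      (AddSubgroup.mem_sup_right (rad_bracket (hid _ hi) (c_mono hmono hj1 hj2) hr0 hr))

theorem HH_sub {n : ℕ} (hmono : ∀ i, i < n → c i ≤ c (i + 1)) (hid : ∀ i, i ≤ n → IsIdl (c i)) :
    ∀ i, i ≤ n → IsSub (HH φ c i) := by
  intro i
  induction i with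
  | zero =>
    intro _ x hx y hy
    exact rad_bracket (hid 0 (Nat.zero_le _)) le_rfl hx hy
  | succ i ih =>
    intro hi x hx y hy
    obtain ⟨u, hu, r, hr, rfl⟩ := AddSubgroup.mem_sup.mp hx
    obtain ⟨u', hu', r', hr', rfl⟩ := AddSubgroup.mem_sup.mp hy
    rw [add_lie, lie_add, lie_add]
    have h1 : ⁅u, u'⁆ ∈ HH φ c i := ih (by omega) u hu u' hu'
    have h2 : ⁅u, r'⁆ ∈ HH φ c i := HH_bracket hmono hid i (by omega) (i + 1) (by omega) hi u hu r' hr'
    have h3 : ⁅r, u'⁆ ∈ HH φ c i := by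
      rw [← lie_skew]
      exact neg_mem (HH_bracket hmono hid i (by omega) (i + 1) (by omega) hi u' hu' r hr)
    have h4 : ⁅r, r'⁆ ∈ radIn φ (c (i + 1)) := rad_bracket (hid _ hi) le_rfl hr hr'
    exact add_mem (add_mem (AddSubgroup.mem_sup_left h1) (AddSubgroup.mem_sup_left h2))
      (add_mem (AddSubgroup.mem_sup_left h3) (AddSubgroup.mem_sup_right h4))

theorem HH_iso {n : ℕ} (hmono : ∀ i, i < n → c i ≤ c (i + 1)) :
    ∀ i, i ≤ n → ∀ x ∈ HH φ c i, ∀ y ∈ HH φ c i, φ ⁅x, y⁆ = 0 := by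
  intro i
  induction i with
  | zero =>
    intro _ x hx y hy
    exact hx.2 y hy.1
  | succ i ih =>
    intro hi x hx y hy
    obtain ⟨u, hu, r, hr, rfl⟩ := AddSubgroup.mem_sup.mp hx
    obtain ⟨u', hu', r', hr', rfl⟩ := AddSubgroup.mem_sup.mp hy
    rw [add_lie, lie_add, lie_add, map_add, map_add, map_add]
    have hle : HH φ c i ≤ c (i + 1) := (HH_le hmono i (by omega)).trans (hmono i (by omega))
    have h1 : φ ⁅u, u'⁆ = 0 := ih (by omega) u hu u' hu'
    have h2 : φ ⁅u, r'⁆ = 0 := by rw [← lie_skew, map_neg, hr'.2 u (hle hu), neg_zero]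
    have h3 : φ ⁅r, u'⁆ = 0 := hr.2 u' (hle hu')
    have h4 : φ ⁅r, r'⁆ = 0 := hr.2 r' hr'.1
    rw [h1, h2, h3, h4]
    simp

end

theorem t_POL (hCHAIN : S_CHAIN) (hVST : S_VST) : S_POL := by
  intro p N hp k _ _ hk hnil a ha hab φ
  have : NeZero (p ^ N) := ⟨pow_ne_zero _ hp.out.ne_zero⟩
  obtain ⟨n, c, hc0, hcn, hid, hst⟩ := hCHAIN p N k hk hnil a ha
  have hmono : ∀ i, i < n → c i ≤ c (i + 1) := fun i hi => (hst i hi).1
  have hra : radIn φ a = a := by
    apply le_antisymm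
    · exact fun x hx => hx.1
    · intro x hx
      exact ⟨hx, fun y hy => by rw [hab x hx y hy, map_zero]⟩
  have hcard : ∀ i, i ≤ n → Nat.card (HH φ c i) ^ 2 = Nat.card (c i) * Nat.card (radIn φ (c i)) := by
    intro i
    induction i with
    | zero =>
      intro _
      change Nat.card (radIn φ (c 0)) ^ 2 = _
      rw [hc0, hra, sq]
    | succ i ih =>
      intro hi
      exact hVST p (p ^ N) k hk φ (c i) (c (i + 1)) (HH φ c i) (hmono i (by omega))
        (hst i (by omega)).2 (HH_le hmono i (by omega)) (le_HH φ c i) (ih (by omega))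
  have hrad : radIn φ (⊤ : AddSubgroup k) = rad φ := by
    ext x
    simp [mem_radIn, mem_rad]
  refine ⟨HH φ c n, ⟨HH_sub hmono hid n le_rfl, HH_iso hmono n le_rfl, ?_, ?_⟩, ?_⟩
  · have h1 := le_HH φ c n
    rw [hcn, hrad] at h1
    exact h1
  · have h1 := hcard n le_rfl
    rw [hcn, hrad, AddSubgroup.card_top] at h1
    exact h1
  · have h1 := HH_zero_le φ c n
    have h2 : HH φ c 0 = a := by
      change radIn φ (c 0) = a
      rw [hc0, hra]
    rwa [h2] at h1

end H68.KL
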